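import Pool.Agent.helper75.CCPowers

/-!
Powers of countably compact groups in ZFC. The construction and the proof are in
`Pool/Agent/helper75/CCPowers.lean`.
-/

open Filter Topology

namespace Pool.Agent.Results.MP_672973_lc.PowersGap

/-- For every `n ≥ 1` there is a Tikhonov topological group `G`, abelian and of exponent two,
without non-trivial convergent sequences, whose power `G ^ m` is countably compact exactly when
`m ≤ n`. In particular `G` itself is countably compact, and for `n = 1` the square `G × G` is not
countably compact. -/
theorem result (n : ℕ) (hn : 1 ≤ n) :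
    ∃ (G : Type) (_ : CommGroup G) (_ : TopologicalSpace G),
      IsTopologicalGroup G ∧ T35Space G ∧ (∀ g : G, g * g = 1) ∧
      (∀ (u : ℕ → G) (z : G), Tendsto u atTop (𝓝 z) → ∀ᶠ k in atTop, u k = z) ∧
      CountablyCompactSpace G ∧ (CountablyCompactSpace (G × G) ↔ 2 ≤ n) ∧
      ∀ m : ℕ, CountablyCompactSpace (Fin m → G) ↔ m ≤ n :=
  Pool.Agent.helper75.CCPowers.main n hn

end Pool.Agent.Results.MP_672973_lc.PowersGap
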